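import Pool.Agent.Helper23.MV.StP

/-!
# Project MV, module CSH: shift of the contour
-/

set_option autoImplicit false

namespace Pool.Agent.Helper96.MV

open Pool.Agent.Helper23.MV MeasureTheory

private theorem norm_F_CSH (h : ℂ → ℂ) (x B : ℝ) (hx : 1 ≤ x) (z : ℂ) (hB : ‖h z‖ ≤ B)
    (m : ℝ) (hm : 0 < m) (hz : m ≤ ‖z‖ ^ 2) :
    ‖h z * (x : ℂ) ^ z / z ^ 2‖ ≤ B * x ^ z.re / m := by
  rw [norm_div, norm_mul, norm_pow, Complex.norm_cpow_eq_rpow_re_of_pos (by linarith)]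
  have h1 : 0 ≤ x ^ z.re := Real.rpow_nonneg (by linarith) _
  have h2 : 0 ≤ ‖h z‖ := norm_nonneg _
  have h3 : ‖h z‖ * x ^ z.re ≤ B * x ^ z.re := mul_le_mul_of_nonneg_right hB h1
  exact div_le_div₀ (le_trans (mul_nonneg h2 h1) h3) h3 hm hz

private theorem sq_CSH (a b : ℝ) : ‖((a : ℂ) + b * Complex.I)‖ ^ 2 = a ^ 2 + b ^ 2 := by
  rw [← Complex.normSq_eq_norm_sq, Complex.normSq_add_mul_I]

private theorem arct_CSH (Y : ℝ) : ∫ y in (-Y)..Y, 4 / (1 + (2 * y) ^ 2) =
    2 * Real.arctan (2 * Y) - 2 * Real.arctan (2 * (-Y)) := by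
  have h1 : ∀ y : ℝ, HasDerivAt (fun y : ℝ => 2 * Real.arctan (2 * y)) (4 / (1 + (2 * y) ^ 2)) y := by
    intro y
    have h2 : HasDerivAt (fun y : ℝ => 2 * y) 2 y := by
      simpa using (hasDerivAt_id y).const_mul (2 : ℝ)
    have h3 := (h2.arctan).const_mul (2 : ℝ)
    have h4 : 2 * (1 / (1 + (2 * y) ^ 2) * 2) = 4 / (1 + (2 * y) ^ 2) := by
      field_simp
      norm_num
    rw [h4] at h3
    exact h3
  refine intervalIntegral.integral_eq_sub_of_hasDerivAt (fun y _ => h1 y) ?_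
  apply Continuous.intervalIntegrable
  refine Continuous.div continuous_const (by fun_prop) (fun y => ?_)
  positivity

theorem hCsh : StCsh := by
  intro h U σ₀ σ Y B x h0 h1 h3 hY hx hB hU hd hh
  set F : ℂ → ℂ := fun z => h z * (x : ℂ) ^ z / z ^ 2 with hF
  have hx0 : (x : ℂ) ≠ 0 := by
    have : x ≠ 0 := by linarith
    exact_mod_cast this
  have hxp : 0 < x := by linarith
  -- differentiability on the rectangle
  have hdF : DifferentiableOn ℂ F (Set.uIcc σ₀ σ ×ℂ Set.uIcc (-Y) Y) := by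
    intro z hz
    rw [Complex.mem_reProdIm, Set.uIcc_of_le h1, Set.uIcc_of_le (by linarith), Set.mem_Icc,
      Set.mem_Icc] at hz
    have hz1 := (hh z hz.1.1 hz.1.2 (abs_le.2 hz.2)).1
    have hz0 : z ≠ 0 := by
      intro h
      rw [h] at hz
      simp only [Complex.zero_re] at hz
      linarith [hz.1.1]
    have e1 : DifferentiableAt ℂ h z := hd.differentiableAt (hU.mem_nhds hz1)
    have e2 : DifferentiableAt ℂ (fun z : ℂ => (x : ℂ) ^ z) z :=
      (differentiableAt_id).const_cpow (Or.inl hx0)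
    exact ((e1.mul e2).div (differentiableAt_id.pow 2) (pow_ne_zero 2 hz0)).differentiableWithinAt
  have hC := Complex.integral_boundary_rect_eq_zero_of_differentiableOn F
    ((σ₀ : ℂ) + (-Y : ℝ) * Complex.I) ((σ : ℂ) + (Y : ℝ) * Complex.I) (by
      simpa using hdF)
  have re1 : ((σ₀ : ℂ) + (-Y : ℝ) * Complex.I).re = σ₀ := by simp
  have re2 : ((σ : ℂ) + (Y : ℝ) * Complex.I).re = σ := by simp
  have im1 : ((σ₀ : ℂ) + (-Y : ℝ) * Complex.I).im = -Y := by simp
  have im2 : ((σ : ℂ) + (Y : ℝ) * Complex.I).im = Y := by simp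
  rw [re1, re2, im1, im2] at hC
  -- bounds
  have hv : ‖∫ y in (-Y)..Y, F (σ₀ + y * Complex.I)‖ ≤ B * x ^ σ₀ * (2 * Real.pi) := by
    have h4 : ∀ y ∈ Set.Ioc (-Y) Y, ‖F (σ₀ + y * Complex.I)‖ ≤
        (B * x ^ σ₀) * (4 / (1 + (2 * y) ^ 2)) := by
      intro y hy
      have e1 := (hh (σ₀ + y * Complex.I) (by simp) (by simpa using h1) (by
        simpa using abs_le.2 ⟨hy.1.le, hy.2⟩)).2
      have e2 := norm_F_CSH h x B hx (σ₀ + y * Complex.I) e1 ((1 + (2 * y) ^ 2) / 4)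
        (by positivity) (by
          rw [sq_CSH]
          nlinarith [h0])
      refine e2.trans (le_of_eq ?_)
      have e3 : ((σ₀ : ℂ) + y * Complex.I).re = σ₀ := by simp
      rw [e3]
      field_simp
    have hint : IntervalIntegrable (fun y : ℝ => (B * x ^ σ₀) * (4 / (1 + (2 * y) ^ 2)))
        volume (-Y) Y := by
      apply Continuous.intervalIntegrable
      refine Continuous.mul continuous_const
        (Continuous.div continuous_const (by fun_prop) (fun y => ?_))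
      positivity
    have h5 : ‖∫ y in (-Y)..Y, F (σ₀ + y * Complex.I)‖ ≤
        ∫ y in (-Y)..Y, (B * x ^ σ₀) * (4 / (1 + (2 * y) ^ 2)) :=
      intervalIntegral.norm_integral_le_of_norm_le (by linarith)
        (Filter.Eventually.of_forall h4) hint
    refine h5.trans ?_
    rw [intervalIntegral.integral_const_mul, arct_CSH]
    have h6 : 0 ≤ B * x ^ σ₀ := mul_nonneg hB (Real.rpow_nonneg hxp.le _)
    refine mul_le_mul_of_nonneg_left ?_ h6
    have h7 := Real.arctan_lt_pi_div_two (2 * Y)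
    have h8 := Real.neg_pi_div_two_lt_arctan (2 * (-Y))
    linarith
  have hh' : ∀ Y' : ℝ, |Y'| = Y → ‖∫ s in σ₀..σ, F (s + Y' * Complex.I)‖ ≤
      B * x ^ σ / Y ^ 2 * (5 / 2) := by
    intro Y' hY'
    have h4 : ∀ s ∈ Set.uIoc σ₀ σ, ‖F (s + Y' * Complex.I)‖ ≤ B * x ^ σ / Y ^ 2 := by
      intro s hs
      rw [Set.uIoc_of_le h1] at hs
      have e1 := (hh (s + Y' * Complex.I) (by simpa using hs.1.le) (by simpa using hs.2) (by
        simpa using hY'.le)).2
      have e2 := norm_F_CSH h x B hx (s + Y' * Complex.I) e1 (Y ^ 2) (by positivity) (by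
        rw [sq_CSH, ← hY', sq_abs]
        nlinarith [sq_nonneg s])
      refine e2.trans ?_
      have e3 : ((s : ℂ) + Y' * Complex.I).re = s := by simp
      rw [e3]
      have e4 : x ^ s ≤ x ^ σ := Real.rpow_le_rpow_of_exponent_le hx hs.2
      gcongr
    have h5 := intervalIntegral.norm_integral_le_of_norm_le_const h4
    refine h5.trans ?_
    have h6 : 0 ≤ B * x ^ σ / Y ^ 2 := by
      have := Real.rpow_nonneg hxp.le σ
      positivity
    refine mul_le_mul_of_nonneg_left ?_ h6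
    rw [abs_of_nonneg (by linarith)]
    linarith
  have hb := hh' (-Y) (by rw [abs_neg, abs_of_nonneg (by linarith)])
  have ht := hh' Y (abs_of_nonneg (by linarith))
  have key : ‖∫ y in (-Y)..Y, F (σ + y * Complex.I)‖ ≤
      ‖∫ y in (-Y)..Y, F (σ₀ + y * Complex.I)‖ + ‖∫ s in σ₀..σ, F (s + (-Y : ℝ) * Complex.I)‖ +
      ‖∫ s in σ₀..σ, F (s + (Y : ℝ) * Complex.I)‖ := by
    set A := ∫ y in (-Y)..Y, F (σ + y * Complex.I)
    set A' := ∫ y in (-Y)..Y, F (σ₀ + y * Complex.I)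
    set b := ∫ s in σ₀..σ, F (s + (-Y : ℝ) * Complex.I)
    set t := ∫ s in σ₀..σ, F (s + (Y : ℝ) * Complex.I)
    have h4 : Complex.I * A = Complex.I * A' - b + t := by
      have h5 : b - t + Complex.I • A - Complex.I • A' = 0 := hC
      simp only [smul_eq_mul] at h5
      linear_combination h5
    have h5 : ‖Complex.I * A‖ = ‖A‖ := by rw [norm_mul, Complex.norm_I, one_mul]
    have h6 : ‖Complex.I * A'‖ = ‖A'‖ := by rw [norm_mul, Complex.norm_I, one_mul]
    rw [← h5, h4, ← h6]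
    exact (norm_add_le _ _).trans (add_le_add (norm_sub_le _ _) le_rfl)
  have hfin : ‖∫ y in (-Y)..Y, F (σ + y * Complex.I)‖ ≤ 10 * B * (x ^ σ₀ + x ^ σ / Y ^ 2) := by
    refine key.trans ?_
    have h4 : 0 ≤ B * x ^ σ₀ := mul_nonneg hB (Real.rpow_nonneg hxp.le _)
    have h5 : 0 ≤ B * x ^ σ / Y ^ 2 := by
      have := Real.rpow_nonneg hxp.le σ
      positivity
    have h6 : Real.pi ≤ 4 := Real.pi_le_four
    have h7 : B * x ^ σ₀ * (2 * Real.pi) ≤ B * x ^ σ₀ * 10 :=
      mul_le_mul_of_nonneg_left (by linarith) h4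
    have h8 : 10 * B * (x ^ σ₀ + x ^ σ / Y ^ 2) = B * x ^ σ₀ * 10 + B * x ^ σ / Y ^ 2 * 10 := by
      ring
    rw [h8]
    linarith
  exact hfin

end Pool.Agent.Helper96.MV
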