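import Pool.Agent.Helper23.MV.StP
import Pool.Agent.Helper90.MT.A4

/-!
# Project MV, module PKR: kernel of a pole
-/

set_option autoImplicit false

namespace Pool.Agent.Helper96.MV

open Pool.Agent.Helper23.MV MeasureTheory Complex Filter Topology FourierTransform Set
open Pool.Agent.Helper90.MT

/-- the kernel, with the exponential weight -/
private noncomputable def K_PKR (a : ℂ) (σ v : ℝ) : ℂ :=
  (cexp (a * (max v 0 : ℝ)) - 1 - a * (max v 0 : ℝ)) / a ^ 2 * cexp (-((σ : ℂ) * v))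

private theorem cont_PKR (a : ℂ) (σ : ℝ) : Continuous (K_PKR a σ) := by
  unfold K_PKR
  fun_prop

/-- the kernel as a combination of exponentials -/
private noncomputable def K1_PKR (a : ℂ) (σ v : ℝ) : ℂ :=
  (cexp ((a - σ) * v) - cexp (-(σ : ℂ) * v) - a * ((v : ℂ) * cexp (-((σ : ℂ) * v)))) / a ^ 2

private theorem K_eq_PKR (a : ℂ) (σ : ℝ) : K_PKR a σ = (Ioi (0 : ℝ)).indicator (K1_PKR a σ) := by
  funext v
  by_cases hv : v ∈ Ioi (0 : ℝ)
  · rw [indicator_of_mem hv, K_PKR, K1_PKR, max_eq_left (le_of_lt hv)]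
    have h1 : cexp ((a - σ) * v) = cexp (a * v) * cexp (-((σ : ℂ) * v)) := by
      rw [← Complex.exp_add]
      congr 1
      ring
    have h2 : cexp (-(σ : ℂ) * v) = cexp (-((σ : ℂ) * v)) := by
      congr 1
      ring
    rw [h1, h2]
    ring
  · rw [indicator_of_notMem hv, K_PKR, max_eq_right (not_lt.1 hv)]
    simp

private theorem intK1_PKR (a : ℂ) (σ : ℝ) (ha : a.re ≤ 1) (hσ : 1 < σ) :
    IntegrableOn (K1_PKR a σ) (Ioi 0) := by
  have h1 : IntegrableOn (fun v : ℝ => cexp ((a - σ) * v)) (Ioi 0) :=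
    integrableOn_exp_mul_complex_Ioi (by simp; linarith) 0
  have h2 : IntegrableOn (fun v : ℝ => cexp (-(σ : ℂ) * v)) (Ioi 0) :=
    integrableOn_exp_mul_complex_Ioi (by simp; linarith) 0
  have h3 : IntegrableOn (fun v : ℝ => (v : ℂ) * cexp (-((σ : ℂ) * v))) (Ioi 0) := by
    refine Integrable.mono (A4.integrableOn_lin_exp (σ := σ) (by linarith)) (by fun_prop) ?_
    refine Eventually.of_forall fun v => ?_
    rw [norm_mul, norm_mul, A4.norm_exp_neg, Complex.norm_real,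
      Real.norm_of_nonneg (Real.exp_pos _).le, Complex.ofReal_re]
  exact ((h1.sub h2).sub (h3.const_mul a)).div_const (a ^ 2)

private theorem int_PKR (a : ℂ) (σ : ℝ) (ha : a.re ≤ 1) (hσ : 1 < σ) :
    Integrable (K_PKR a σ) := by
  rw [K_eq_PKR, integrable_indicator_iff measurableSet_Ioi]
  exact intK1_PKR a σ ha hσ

private theorem z_re_PKR (σ ξ : ℝ) : ((σ : ℂ) + (2 * Real.pi * ξ : ℝ) * I).re = σ := by simp

private theorem fourier_PKR (a : ℂ) (σ : ℝ) (ha0 : a ≠ 0) (ha : a.re ≤ 1) (hσ : 1 < σ) (ξ : ℝ) :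
    𝓕 (K_PKR a σ) ξ = 1 / (((σ : ℂ) + (2 * Real.pi * ξ : ℝ) * I) ^ 2 *
      (((σ : ℂ) + (2 * Real.pi * ξ : ℝ) * I) - a)) := by
  set z : ℂ := (σ : ℂ) + (2 * Real.pi * ξ : ℝ) * I with hz
  have hzr : z.re = σ := z_re_PKR σ ξ
  have hz0 : z ≠ 0 := by
    intro h
    rw [h] at hzr
    simp at hzr
    linarith
  have hza : z - a ≠ 0 := by
    intro h
    have := congrArg Complex.re h
    rw [Complex.sub_re, hzr, Complex.zero_re] at this
    linarith
  rw [Real.fourier_real_eq_integral_exp_smul, K_eq_PKR]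
  have e1 : (fun v : ℝ => cexp (↑(-2 * Real.pi * v * ξ) * I) •
      (Ioi (0 : ℝ)).indicator (K1_PKR a σ) v) = (Ioi (0 : ℝ)).indicator
      (fun v : ℝ => (cexp ((a - z) * v) - cexp (-z * v) - a * ((v : ℂ) * cexp (-(z * v)))) / a ^ 2) := by
    funext v
    by_cases hv : v ∈ Ioi (0 : ℝ)
    · rw [indicator_of_mem hv, indicator_of_mem hv, smul_eq_mul, K1_PKR]
      have h1 : cexp ((a - z) * v) = cexp (↑(-2 * Real.pi * v * ξ) * I) * cexp ((a - σ) * v) := by
        rw [← Complex.exp_add]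
        congr 1
        rw [hz]
        push_cast
        ring
      have h2 : cexp (-z * v) = cexp (↑(-2 * Real.pi * v * ξ) * I) * cexp (-(σ : ℂ) * v) := by
        rw [← Complex.exp_add]
        congr 1
        rw [hz]
        push_cast
        ring
      have h3 : cexp (-(z * v)) = cexp (↑(-2 * Real.pi * v * ξ) * I) * cexp (-((σ : ℂ) * v)) := by
        rw [← Complex.exp_add]
        congr 1
        rw [hz]
        push_cast
        ring
      rw [h1, h2, h3]
      ring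
    · rw [indicator_of_notMem hv, indicator_of_notMem hv, smul_zero]
  rw [e1, integral_indicator measurableSet_Ioi, integral_div]
  have i1 : IntegrableOn (fun v : ℝ => cexp ((a - z) * v)) (Ioi 0) :=
    integrableOn_exp_mul_complex_Ioi (by rw [Complex.sub_re, hzr]; linarith) 0
  have i2 : IntegrableOn (fun v : ℝ => cexp (-z * v)) (Ioi 0) :=
    integrableOn_exp_mul_complex_Ioi (by rw [Complex.neg_re, hzr]; linarith) 0
  have i3 : IntegrableOn (fun v : ℝ => (v : ℂ) * cexp (-(z * v))) (Ioi 0) := by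
    refine Integrable.mono (A4.integrableOn_lin_exp (σ := σ) (by linarith)) (by fun_prop) ?_
    refine Eventually.of_forall fun v => ?_
    rw [norm_mul, norm_mul, A4.norm_exp_neg, Complex.norm_real,
      Real.norm_of_nonneg (Real.exp_pos _).le, hzr]
  have i12 : IntegrableOn (fun v : ℝ => cexp ((a - z) * v) - cexp (-z * v)) (Ioi 0) := i1.sub i2
  rw [integral_sub i12 (i3.const_mul a), integral_sub i1 i2, integral_const_mul,
    A4.integral_lin_exp (c := z) (by rw [hzr]; linarith),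
    integral_exp_mul_complex_Ioi (by rw [Complex.sub_re, hzr]; linarith) 0,
    integral_exp_mul_complex_Ioi (by rw [Complex.neg_re, hzr]; linarith) 0]
  have hza' : a - z ≠ 0 := by
    intro h
    apply hza
    linear_combination -h
  simp only [ofReal_zero, mul_zero, Complex.exp_zero]
  field_simp
  ring

private theorem inv_int_PKR (a : ℂ) (σ : ℝ) (ha : a.re ≤ 1) (hσ : 1 < σ) :
    Integrable (fun ξ : ℝ => 1 / (((σ : ℂ) + (2 * Real.pi * ξ : ℝ) * I) ^ 2 *
      (((σ : ℂ) + (2 * Real.pi * ξ : ℝ) * I) - a))) := by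
  have hne : ∀ ξ : ℝ, ((σ : ℂ) + (2 * Real.pi * ξ : ℝ) * I) - a ≠ 0 := by
    intro ξ h
    have := congrArg Complex.re h
    rw [Complex.sub_re, z_re_PKR, Complex.zero_re] at this
    linarith
  refine Integrable.mono' ((A4.integrable_inv hσ).norm.mul_const (1 / (σ - 1))) ?_ ?_
  · refine Continuous.aestronglyMeasurable ?_
    refine Continuous.div continuous_const (by fun_prop) fun ξ => ?_
    exact mul_ne_zero (pow_ne_zero _ (A4.s_ne hσ _)) (hne ξ)
  · refine Eventually.of_forall fun ξ => ?_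
    have h1 : σ - 1 ≤ ‖((σ : ℂ) + (2 * Real.pi * ξ : ℝ) * I) - a‖ := by
      refine le_trans ?_ (Complex.re_le_norm _)
      rw [Complex.sub_re, z_re_PKR]
      linarith
    have h2 : 0 < σ - 1 := by linarith
    rw [norm_div, norm_mul, norm_one, norm_div, norm_one]
    rw [div_mul_div_comm, one_mul]
    have h3 : 0 < ‖((σ : ℂ) + (2 * Real.pi * ξ : ℝ) * I) ^ 2‖ :=
      norm_pos_iff.2 (pow_ne_zero _ (A4.s_ne hσ _))
    exact one_div_le_one_div_of_le (mul_pos h3 h2) (mul_le_mul_of_nonneg_left h1 h3.le)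

private theorem inversion_PKR (a : ℂ) (σ : ℝ) (ha0 : a ≠ 0) (ha : a.re ≤ 1) (hσ : 1 < σ) (u : ℝ) :
    cexp (σ * u) * K_PKR a σ u = ∫ ξ : ℝ, cexp (u * ((σ : ℂ) + (2 * Real.pi * ξ : ℝ) * I)) *
      (1 / (((σ : ℂ) + (2 * Real.pi * ξ : ℝ) * I) ^ 2 *
      (((σ : ℂ) + (2 * Real.pi * ξ : ℝ) * I) - a))) := by
  have hF : 𝓕 (K_PKR a σ) = fun ξ : ℝ => 1 / (((σ : ℂ) + (2 * Real.pi * ξ : ℝ) * I) ^ 2 *
      (((σ : ℂ) + (2 * Real.pi * ξ : ℝ) * I) - a)) :=
    funext fun ξ => fourier_PKR a σ ha0 ha hσ ξ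
  have h1 := congrFun (Continuous.fourierInv_fourier_eq (cont_PKR a σ) (int_PKR a σ ha hσ)
    (by rw [hF]; exact inv_int_PKR a σ ha hσ)) u
  rw [Real.fourierInv_eq', hF] at h1
  rw [← h1, ← integral_const_mul]
  congr 1
  funext ξ
  rw [smul_eq_mul, ← mul_assoc, ← Complex.exp_add, RCLike.inner_apply, conj_trivial]
  congr 2
  push_cast
  ring

theorem hPkr : StPkr := by
  intro a σ x h1 h2 hσ hx
  have ha0 : a ≠ 0 := by
    intro h
    rw [h, Complex.zero_re] at h1
    linarith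
  have hx0 : (0 : ℝ) < x := by linarith
  have hxc : (x : ℂ) ≠ 0 := by exact_mod_cast hx0.ne'
  have hlog : (Complex.log (x : ℂ)) = ((Real.log x : ℝ) : ℂ) := (Complex.ofReal_log hx0.le).symm
  have hinv := inversion_PKR a σ ha0 h2 hσ (Real.log x)
  -- change of variables
  have hcv := Measure.integral_comp_mul_left (fun y : ℝ => (x : ℂ) ^ (σ + y * Complex.I : ℂ) /
      ((σ + y * Complex.I : ℂ) ^ 2 * ((σ + y * Complex.I : ℂ) - a))) (2 * Real.pi)
  have hpi : (0 : ℝ) < 2 * Real.pi := by positivity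
  have e1 : (fun ξ : ℝ => (x : ℂ) ^ (σ + (2 * Real.pi * ξ : ℝ) * Complex.I : ℂ) /
      ((σ + (2 * Real.pi * ξ : ℝ) * Complex.I : ℂ) ^ 2 *
        ((σ + (2 * Real.pi * ξ : ℝ) * Complex.I : ℂ) - a))) =
      fun ξ : ℝ => cexp ((Real.log x : ℝ) * ((σ : ℂ) + (2 * Real.pi * ξ : ℝ) * I)) *
      (1 / (((σ : ℂ) + (2 * Real.pi * ξ : ℝ) * I) ^ 2 *
      (((σ : ℂ) + (2 * Real.pi * ξ : ℝ) * I) - a))) := by
    funext ξ
    rw [Complex.cpow_def_of_ne_zero hxc, hlog, mul_one_div]
  rw [e1, ← hinv] at hcv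
  have hmax : max (Real.log x) 0 = Real.log x := max_eq_left (Real.log_nonneg hx)
  have hK : cexp (σ * (Real.log x : ℝ)) * K_PKR a σ (Real.log x) =
      (x : ℂ) ^ a / a ^ 2 - ((Real.log x : ℝ) : ℂ) / a - 1 / a ^ 2 := by
    rw [K_PKR, hmax]
    have h3 : cexp (σ * (Real.log x : ℝ)) * cexp (-((σ : ℂ) * (Real.log x : ℝ))) = 1 := by
      rw [← Complex.exp_add, add_neg_cancel, Complex.exp_zero]
    have h4 : (x : ℂ) ^ a = cexp (a * (Real.log x : ℝ)) := by
      rw [Complex.cpow_def_of_ne_zero hxc, hlog, mul_comm]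
    rw [h4]
    calc cexp (σ * (Real.log x : ℝ)) * ((cexp (a * (Real.log x : ℝ)) - 1 - a * (Real.log x : ℝ)) /
          a ^ 2 * cexp (-((σ : ℂ) * (Real.log x : ℝ))))
        = (cexp (σ * (Real.log x : ℝ)) * cexp (-((σ : ℂ) * (Real.log x : ℝ)))) *
          ((cexp (a * (Real.log x : ℝ)) - 1 - a * (Real.log x : ℝ)) / a ^ 2) := by ring
      _ = _ := by
          rw [h3, one_mul]
          field_simp
          ring
  rw [hK, abs_of_pos (inv_pos.2 hpi)] at hcv
  rw [hcv, Complex.real_smul]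
  push_cast
  ring

end Pool.Agent.Helper96.MV
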